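import Pool.Agent.H31.PC.Targets

set_option autoImplicit false

namespace Pool.Agent.H51.PCROOT

open Finset Pool.Agent.H31.PC

/-- the dehomogenized polynomial -/
noncomputable def ps (d : ℕ) (φ : Polynomial ℤ) (u : ℤ) : Polynomial ℤ :=
  ∑ j ∈ Finset.range (d + 1), Polynomial.monomial j (φ.coeff j * u ^ (d - j))

theorem eval_ps (d : ℕ) (φ : Polynomial ℤ) (u v : ℤ) : (ps d φ u).eval v = hv d φ u v := by
  rw [ps, hv, Polynomial.eval_finsetSum]
  refine Finset.sum_congr rfl fun j _ => ?_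
  rw [Polynomial.eval_monomial]

theorem coeff_ps (d : ℕ) (φ : Polynomial ℤ) (u : ℤ) (j : ℕ) (hj : j ≤ d) :
    (ps d φ u).coeff j = φ.coeff j * u ^ (d - j) := by
  rw [ps, Polynomial.finsetSum_coeff, Finset.sum_eq_single j]
  · rw [Polynomial.coeff_monomial, if_pos rfl]
  · intro k _ hk
    rw [Polynomial.coeff_monomial, if_neg hk]
  · intro h
    exact absurd (Finset.mem_range.2 (by omega)) h

theorem deg_ps (d : ℕ) (φ : Polynomial ℤ) (u : ℤ) : (ps d φ u).natDegree ≤ d := by
  rw [ps]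
  refine Polynomial.natDegree_sum_le_of_forall_le _ _ fun j hj => ?_
  exact (Polynomial.natDegree_monomial_le _).trans (by rw [Finset.mem_range] at hj; omega)

/-- the zeros modulo `m` -/
noncomputable def AA (P : Polynomial ℤ) (m : ℕ) : Finset ℕ :=
  (Finset.range m).filter fun v : ℕ => (m : ℤ) ∣ P.eval (v : ℤ)

theorem mem_AA {P : Polynomial ℤ} {m v : ℕ} :
    v ∈ AA P m ↔ v < m ∧ (m : ℤ) ∣ P.eval (v : ℤ) := by
  rw [AA, Finset.mem_filter, Finset.mem_range]

theorem card_AA (P : Polynomial ℤ) (m : ℕ) : #(AA P m) ≤ m :=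
  (Finset.card_filter_le _ _).trans (Finset.card_range m).le

/-- zeros modulo a prime -/
theorem prime_count (d : ℕ) (φ : Polynomial ℤ) (u : ℤ) (p : ℕ) (hp : p.Prime) (hd : 1 ≤ d)
    (hφ : φ.natDegree ≤ d) :
    #(AA (ps d φ u) p) ≤
      d * (Nat.gcd u.natAbs p * Nat.gcd φ.content.natAbs p) := by
  have hpp : 0 < p := hp.pos
  by_cases h1 : p ∣ u.natAbs
  · rw [Nat.gcd_eq_right h1]
    calc #(AA (ps d φ u) p) ≤ p := card_AA _ _
      _ = 1 * (p * 1) := by ring
      _ ≤ d * (p * Nat.gcd φ.content.natAbs p) :=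
          Nat.mul_le_mul hd (Nat.mul_le_mul le_rfl (Nat.gcd_pos_of_pos_right _ hpp))
  by_cases h2 : p ∣ φ.content.natAbs
  · rw [Nat.gcd_eq_right h2]
    calc #(AA (ps d φ u) p) ≤ p := card_AA _ _
      _ = 1 * (1 * p) := by ring
      _ ≤ d * (Nat.gcd u.natAbs p * p) :=
          Nat.mul_le_mul hd (Nat.mul_le_mul (Nat.gcd_pos_of_pos_right _ hpp) le_rfl)
  have hF : Fact p.Prime := ⟨hp⟩
  have hex : ∃ j, ¬ (p : ℤ) ∣ φ.coeff j := by
    by_contra hcon
    push Not at hcon
    apply h2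
    have h3 : Polynomial.C (p : ℤ) ∣ φ := (Polynomial.C_dvd_iff_dvd_coeff _ _).2 hcon
    have h4 := Polynomial.dvd_content_iff_C_dvd.2 h3
    rw [← Int.natCast_dvd]
    exact h4
  obtain ⟨j, hj⟩ := hex
  have hjd : j ≤ d := by
    by_contra hcon
    apply hj
    rw [Polynomial.coeff_eq_zero_of_natDegree_lt (by omega)]
    exact dvd_zero _
  set Q : Polynomial (ZMod p) := (ps d φ u).map (Int.castRingHom (ZMod p)) with hQ
  have hQ0 : Q ≠ 0 := by
    intro h0
    have h3 : Q.coeff j = 0 := by rw [h0, Polynomial.coeff_zero]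
    rw [hQ, Polynomial.coeff_map, coeff_ps d φ u j hjd, map_mul, map_pow] at h3
    rcases mul_eq_zero.1 h3 with h4 | h4
    · apply hj
      exact (ZMod.intCast_zmod_eq_zero_iff_dvd _ _).1 h4
    · apply h1
      have h5 := eq_zero_of_pow_eq_zero h4
      rw [← Int.natCast_dvd]
      exact (ZMod.intCast_zmod_eq_zero_iff_dvd _ _).1 h5
  have hle : #(AA (ps d φ u) p) ≤ #Q.roots.toFinset := by
    refine Finset.card_le_card_of_injOn (fun v : ℕ => (v : ZMod p)) ?_ ?_
    · intro v hv
      have hv2 := (mem_AA.1 hv).2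
      rw [Finset.mem_coe, Multiset.mem_toFinset, Polynomial.mem_roots hQ0, Polynomial.IsRoot.def]
      have h6 : ((v : ℕ) : ZMod p) = Int.castRingHom (ZMod p) (v : ℤ) := by simp
      simp only [h6]
      rw [hQ, Polynomial.eval_map, Polynomial.eval₂_hom]
      exact (ZMod.intCast_zmod_eq_zero_iff_dvd _ _).2 hv2
    · intro v hv w hw hvw
      have hv1 := (mem_AA.1 hv).1
      have hw1 := (mem_AA.1 hw).1
      have h7 := (ZMod.natCast_eq_natCast_iff' v w p).1 hvw
      rwa [Nat.mod_eq_of_lt hv1, Nat.mod_eq_of_lt hw1] at h7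
  have hdeg : Q.natDegree ≤ d := (Polynomial.natDegree_map_le).trans (deg_ps d φ u)
  calc #(AA (ps d φ u) p) ≤ #Q.roots.toFinset := hle
    _ ≤ Multiset.card Q.roots := Multiset.toFinset_card_le _
    _ ≤ Q.natDegree := Polynomial.card_roots' _
    _ ≤ d * (1 * 1) := by rw [mul_one, mul_one]; exact hdeg
    _ ≤ d * (Nat.gcd u.natAbs p * Nat.gcd φ.content.natAbs p) :=
        Nat.mul_le_mul le_rfl (Nat.mul_le_mul (Nat.gcd_pos_of_pos_right _ hpp)
          (Nat.gcd_pos_of_pos_right _ hpp))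

/-- the condition depends on the residue only -/
theorem dvd_mod (P : Polynomial ℤ) (m : ℕ) (v : ℕ) (h : (m : ℤ) ∣ P.eval (v : ℤ)) :
    (m : ℤ) ∣ P.eval ((v % m : ℕ) : ℤ) := by
  have h1 := Polynomial.sub_dvd_eval_sub ((v % m : ℕ) : ℤ) (v : ℤ) P
  have h2 : (m : ℤ) ∣ ((v % m : ℕ) : ℤ) - (v : ℤ) := by
    rw [Int.natCast_mod, Int.emod_def]
    exact ⟨-(v / m : ℤ), by ring⟩
  have h3 := (dvd_add_right h).2 (h2.trans h1)
  rwa [add_sub_cancel] at h3

/-- zeros modulo a squarefree number -/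
theorem sq_count (d : ℕ) (φ : Polynomial ℤ) (u : ℤ) (hd : 1 ≤ d) (hφ : φ.natDegree ≤ d) :
    ∀ s : ℕ, Squarefree s →
    #(AA (ps d φ u) s) ≤
      d ^ #s.primeFactors * (Nat.gcd u.natAbs s * Nat.gcd φ.content.natAbs s) := by
  intro s
  induction s using Nat.strong_induction_on with
  | _ s ih =>
    intro hs
    rcases Nat.lt_or_ge s 2 with h2 | h2
    · have hs0 : s ≠ 0 := hs.ne_zero
      have : s = 1 := by omega
      subst this
      simpa using card_AA (ps d φ u) 1
    · have hs1 : s ≠ 1 := by omega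
      have hp : s.minFac.Prime := Nat.minFac_prime hs1
      obtain ⟨t, ht⟩ := Nat.minFac_dvd s
      set p := s.minFac with hpdef
      have hcop : Nat.Coprime p t := by
        rw [ht] at hs
        exact Nat.coprime_of_squarefree_mul hs
      have ht0 : 0 < t := by
        rcases Nat.eq_zero_or_pos t with h0 | h0
        · rw [h0, mul_zero] at ht
          omega
        · exact h0
      have hts : t < s := by
        rw [ht]
        nlinarith [hp.two_le]
      have hst : Squarefree t := hs.squarefree_of_dvd ⟨p, by rw [ht]; ring⟩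
      have h3 := ih t hts hst
      have h4 := prime_count d φ u p hp hd hφ
      have hinj : #(AA (ps d φ u) s) ≤
          #((AA (ps d φ u) p) ×ˢ
            (AA (ps d φ u) t)) := by
        refine Finset.card_le_card_of_injOn (fun v : ℕ => (v % p, v % t)) ?_ ?_
        · intro v hv
          have hv2 := (mem_AA.1 hv).2
          rw [Finset.mem_coe, Finset.mem_product, mem_AA, mem_AA]
          refine ⟨⟨Nat.mod_lt _ hp.pos, dvd_mod _ _ _ (dvd_trans ?_ hv2)⟩,
            ⟨Nat.mod_lt _ ht0, dvd_mod _ _ _ (dvd_trans ?_ hv2)⟩⟩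
          · rw [ht]; push_cast; exact dvd_mul_right _ _
          · rw [ht]; push_cast; exact dvd_mul_left _ _
        · intro v hv w hw hvw
          have hv1 := (mem_AA.1 hv).1
          have hw1 := (mem_AA.1 hw).1
          have h5 : v % p = w % p ∧ v % t = w % t := by simpa using hvw
          have h6 : v ≡ w [MOD p * t] :=
            (Nat.modEq_and_modEq_iff_modEq_mul hcop).1 h5
          rw [← ht] at h6
          have h7 : v % s = w % s := h6
          rwa [Nat.mod_eq_of_lt hv1, Nat.mod_eq_of_lt hw1] at h7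
      rw [Finset.card_product] at hinj
      have hpf : #s.primeFactors = 1 + #t.primeFactors := by
        rw [ht, hcop.primeFactors_mul, Finset.card_union_of_disjoint hcop.disjoint_primeFactors,
          hp.primeFactors, Finset.card_singleton]
      calc #(AA (ps d φ u) s)
          ≤ _ := hinj
        _ ≤ (d * (Nat.gcd u.natAbs p * Nat.gcd φ.content.natAbs p)) *
            (d ^ #t.primeFactors * (Nat.gcd u.natAbs t * Nat.gcd φ.content.natAbs t)) :=
            Nat.mul_le_mul h4 h3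
        _ = d ^ #s.primeFactors * (Nat.gcd u.natAbs s * Nat.gcd φ.content.natAbs s) := by
            rw [hpf, ht, hcop.gcd_mul, hcop.gcd_mul, pow_add, pow_one]
            ring

/-- an interval contains few elements of a residue class -/
theorem interval (s : ℕ) (hs : 0 < s) (Y : ℕ) (r : ℤ) :
    #{v ∈ Finset.Icc (-(Y : ℤ)) Y | v % s = r} * s ≤ 2 * Y + 1 + s := by
  have hsz : (0 : ℤ) < s := by exact_mod_cast hs
  have h1 : #{v ∈ Finset.Icc (-(Y : ℤ)) Y | v % s = r} ≤
      #(Finset.Icc (-((Y + r) / (s : ℤ))) ((Y - r) / (s : ℤ))) := by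
    refine Finset.card_le_card_of_injOn (fun v : ℤ => v / s) ?_ ?_
    · intro v hv
      obtain ⟨hv1, hv2⟩ := Finset.mem_filter.1 hv
      rw [Finset.mem_Icc] at hv1
      have h3 := Int.emod_add_mul_ediv v s
      rw [hv2] at h3
      rw [Finset.mem_coe, Finset.mem_Icc]
      constructor
      · rw [neg_le, Int.le_ediv_iff_mul_le hsz]
        have : -(v / (s : ℤ)) * s = -(s * (v / s)) := by ring
        rw [this]
        linarith
      · rw [Int.le_ediv_iff_mul_le hsz]
        have : (v / (s : ℤ)) * s = s * (v / s) := by ring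
        rw [this]
        linarith
    · intro v hv w hw hvw
      have hv2 := (Finset.mem_filter.1 hv).2
      have hw2 := (Finset.mem_filter.1 hw).2
      have h3 := Int.emod_add_mul_ediv v s
      have h4 := Int.emod_add_mul_ediv w s
      have h5 : v / (s : ℤ) = w / s := hvw
      rw [hv2, h5] at h3
      rw [hw2] at h4
      linarith
  rw [Int.card_Icc] at h1
  have h2 : ((Y - r) / (s : ℤ) + 1 - -((Y + r) / (s : ℤ))).toNat * s ≤ 2 * Y + 1 + s := by
    rcases le_or_gt ((Y - r) / (s : ℤ) + 1 - -((Y + r) / (s : ℤ))) 0 with h0 | h0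
    · rw [Int.toNat_of_nonpos h0]
      omega
    · zify
      rw [Int.toNat_of_nonneg h0.le]
      have h5 := Int.ediv_mul_le (Y - r) hsz.ne'
      have h6 := Int.ediv_mul_le (Y + r) hsz.ne'
      linarith
  exact (Nat.mul_le_mul h1 le_rfl).trans h2

theorem pf_ROOT : T_ROOT := by
  intro d φ s u Y hd hφ hs
  have hs0 : 0 < s := Nat.pos_of_ne_zero hs.ne_zero
  have hsz : (0 : ℤ) < s := by exact_mod_cast hs0
  set A := AA (ps d φ u) s with hA
  have h1 : #{v ∈ Finset.Icc (-(Y : ℤ)) Y | (s : ℤ) ∣ hv d φ u v} ≤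
      ∑ r ∈ A, #{v ∈ Finset.Icc (-(Y : ℤ)) Y | v % s = (r : ℤ)} := by
    have hsub : ({v ∈ Finset.Icc (-(Y : ℤ)) Y | (s : ℤ) ∣ hv d φ u v}) ⊆
        A.biUnion fun r => {v ∈ Finset.Icc (-(Y : ℤ)) Y | v % s = (r : ℤ)} := by
      intro v hv1
      obtain ⟨hv2, hv3⟩ := Finset.mem_filter.1 hv1
      rw [Finset.mem_biUnion]
      have hnn : 0 ≤ v % s := Int.emod_nonneg _ hsz.ne'
      have hlt : v % s < s := Int.emod_lt_of_pos _ hsz
      refine ⟨(v % s).toNat, ?_, ?_⟩
      · rw [hA, mem_AA]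
        constructor
        · omega
        · rw [Int.toNat_of_nonneg hnn]
          rw [← eval_ps] at hv3
          have h4 := Polynomial.sub_dvd_eval_sub (v % s) v (ps d φ u)
          have h5 : (s : ℤ) ∣ v % s - v := by
            rw [Int.emod_def]
            exact ⟨-(v / s), by ring⟩
          have h6 := (dvd_add_right hv3).2 (h5.trans h4)
          rwa [add_sub_cancel] at h6
      · rw [Finset.mem_filter]
        exact ⟨hv2, (Int.toNat_of_nonneg hnn).symm⟩
    exact (Finset.card_le_card hsub).trans Finset.card_biUnion_le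
  calc #{v ∈ Finset.Icc (-(Y : ℤ)) Y | (s : ℤ) ∣ hv d φ u v} * s
      ≤ (∑ r ∈ A, #{v ∈ Finset.Icc (-(Y : ℤ)) Y | v % s = (r : ℤ)}) * s :=
        Nat.mul_le_mul h1 le_rfl
    _ = ∑ r ∈ A, #{v ∈ Finset.Icc (-(Y : ℤ)) Y | v % s = (r : ℤ)} * s := Finset.sum_mul _ _ _
    _ ≤ ∑ r ∈ A, (2 * Y + 1 + s) := Finset.sum_le_sum fun r _ => interval s hs0 Y r
    _ = #A * (2 * Y + 1 + s) := by rw [Finset.sum_const, smul_eq_mul]
    _ ≤ d ^ #s.primeFactors * (Nat.gcd u.natAbs s * Nat.gcd φ.content.natAbs s) *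
          (2 * Y + 1 + s) := Nat.mul_le_mul (sq_count d φ u hd hφ s hs) le_rfl

end Pool.Agent.H51.PCROOT
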